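import Mathlib

/-! Sparse sets do not give thresholds: truth tables of bounded width. -/

set_option autoImplicit false

namespace Pool.Agent.TH680.KC

/-- the bound for the length of a chain -/
def Fb (c : ℕ) : ℕ → ℕ
  | 0 => 0
  | k + 1 => 2 * c * (2 * Fb c k + 1)

theorem Fb_le (c : ℕ) : ∀ k, Fb c k + 1 ≤ (4 * c + 1) ^ k
  | 0 => by simp [Fb]
  | k + 1 => by
    have ih := Fb_le c k
    have h1 : Fb c (k + 1) + 1 ≤ (4 * c + 1) * (Fb c k + 1) := by
      simp only [Fb]
      have e1 : 2 * c * (2 * Fb c k + 1) = 4 * (c * Fb c k) + 2 * c := by ring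
      have e2 : (4 * c + 1) * (Fb c k + 1) = 4 * (c * Fb c k) + 4 * c + Fb c k + 1 := by ring
      omega
    calc Fb c (k + 1) + 1 ≤ (4 * c + 1) * (Fb c k + 1) := h1
      _ ≤ (4 * c + 1) * (4 * c + 1) ^ k := Nat.mul_le_mul_left _ ih
      _ = (4 * c + 1) ^ (k + 1) := by ring

theorem chain_mono {g h : ℕ → ℕ} {m : ℕ} (hgh : ∀ s < m, g s < h s ∧ h s ≤ g (s + 1)) :
    ∀ a b, a ≤ b → b ≤ m → g a ≤ g b := by
  intro a b hab
  induction b, hab using Nat.le_induction with
  | base => exact fun _ => le_rfl
  | succ b hab ih =>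
    intro hb
    have h1 := ih (by omega)
    have h2 := hgh b (by omega)
    omega

variable {Y : Finset (List Bool)} {qs tt : ℕ → List (List Bool)} {S : ℕ → List Bool → Bool} {c : ℕ}

/-- **Chains are short.** -/
theorem chain_le : ∀ (k : ℕ) (P : Finset (List Bool)) (β : List Bool → Bool) (m : ℕ)
    (g h : ℕ → ℕ), (∀ s < m, g s < h s ∧ h s ≤ g (s + 1)) →
    (∀ s < m, (∀ y ∈ qs (h s), y ∈ Y) ∧ ((qs (h s)).toFinset \ P).card ≤ k) →
    (∀ s ≤ m, ∀ y ∈ P, S (g s) y = β y) →
    (∀ s ≤ m, (Y.filter (fun y => S (g s) y = true)).card ≤ c) →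
    (∀ s < m, ∀ t ≤ m, ((qs (h s)).map (S (g t)) ∈ tt (h s) ↔ g t < h s)) →
    m ≤ Fb c k := by
  intro k
  induction k with
  | zero =>
    intro P β m g h hgh hq hP hS hr
    by_contra hm
    simp only [Fb] at hm
    have hm1 : 0 < m := by omega
    have h1 := hq 0 hm1
    have hsub : ∀ y ∈ qs (h 0), y ∈ P := by
      intro y hy
      have h2 : (qs (h 0)).toFinset \ P = ∅ := Finset.card_eq_zero.1 (by omega)
      by_contra hyP
      have h3 : y ∈ (qs (h 0)).toFinset \ P := Finset.mem_sdiff.2 ⟨List.mem_toFinset.2 hy, hyP⟩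
      rw [h2] at h3
      simp at h3
    have e : (qs (h 0)).map (S (g 0)) = (qs (h 0)).map (S (g 1)) := by
      apply List.map_congr_left
      intro y hy
      rw [hP 0 (by omega) y (hsub y hy), hP 1 (by omega) y (hsub y hy)]
    have h4 := (hr 0 hm1 0 (by omega)).2 (hgh 0 hm1).1
    rw [e] at h4
    have h5 := (hr 0 hm1 1 (by omega)).1 h4
    have h6 := (hgh 0 hm1).2
    simp only [Nat.zero_add] at h6
    omega
  | succ k ih =>
    intro P β m g h hgh hq hP hS hr
    by_contra hm
    push Not at hm
    have hmono := chain_mono hgh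
    set T0 := Y.filter (fun y => S (g 0) y = true) ∪ Y.filter (fun y => S (g m) y = true) with hT0
    have hT0c : T0.card ≤ 2 * c := by
      have h1 := Finset.card_union_le (Y.filter (fun y => S (g 0) y = true))
        (Y.filter (fun y => S (g m) y = true))
      have h2 := hS 0 (by omega)
      have h3 := hS m le_rfl
      rw [hT0]
      omega
    have hy : ∀ s, ∃ y, s < m → y ∈ T0 ∧ y ∈ qs (h s) ∧ y ∉ P := by
      intro s
      by_cases hs : s < m
      · by_contra hcon
        push Not at hcon
        have e : (qs (h s)).map (S (g 0)) = (qs (h s)).map (S (g m)) := by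
          apply List.map_congr_left
          intro y hy
          by_cases hyP : y ∈ P
          · rw [hP 0 (by omega) y hyP, hP m le_rfl y hyP]
          · have h1 : y ∉ T0 := fun h2 => hyP ((hcon y).2 h2 hy)
            have hyY := (hq s hs).1 y hy
            rw [hT0, Finset.mem_union, Finset.mem_filter, Finset.mem_filter] at h1
            push Not at h1
            have h2 := h1.1 hyY
            have h3 := h1.2 hyY
            rw [Bool.eq_false_iff.2 h2, Bool.eq_false_iff.2 h3]
        have h4 := (hr s hs 0 (by omega)).2 (by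
          have := hmono 0 s (by omega) (by omega)
          have := (hgh s hs).1
          omega)
        rw [e] at h4
        have h5 := (hr s hs m le_rfl).1 h4
        have h6 := (hgh s hs).2
        have h7 := hmono (s + 1) m (by omega) le_rfl
        omega
      · exact ⟨[], fun h => absurd h hs⟩
    choose y hy using hy
    have hmaps : ∀ s ∈ Finset.range m, y s ∈ T0 := fun s hs => (hy s (Finset.mem_range.1 hs)).1
    obtain ⟨y₀, _, hfib⟩ := Finset.exists_lt_card_fiber_of_mul_lt_card_of_maps_to
      (n := 2 * Fb c k + 1) hmaps (by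
        rw [Finset.card_range]
        refine lt_of_le_of_lt (Nat.mul_le_mul_right _ hT0c) ?_
        simpa [Fb] using hm)
    set T := (Finset.range m).filter (fun s => y s = y₀) with hT
    set T' := insert m T with hT'
    have hmT : m ∉ T := by
      rw [hT, Finset.mem_filter, Finset.mem_range]
      omega
    have hT'c : 2 * Fb c k + 3 ≤ T'.card := by
      rw [hT', Finset.card_insert_of_notMem hmT]
      omega
    obtain ⟨b, hb⟩ : ∃ b : Bool, Fb c k + 2 ≤ (T'.filter (fun t => S (g t) y₀ = b)).card := by
      by_contra hcon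
      push Not at hcon
      have h1 := hcon true
      have h2 := hcon false
      have h3 : T'.card = (T'.filter (fun t => S (g t) y₀ = true)).card +
          (T'.filter (fun t => S (g t) y₀ = false)).card := by
        rw [← Finset.card_filter_add_card_filter_not (s := T') (fun t => S (g t) y₀ = true)]
        simp only [Bool.not_eq_true]
      omega
    obtain ⟨C, hCsub, hCc⟩ := Finset.exists_subset_card_eq hb
    have hC : ∀ i ∈ C, (i = m ∨ i ∈ T) ∧ S (g i) y₀ = b := by
      intro i hi
      have h1 := hCsub hi
      rw [Finset.mem_filter, hT', Finset.mem_insert] at h1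
      exact h1
    have hCm : ∀ i ∈ C, i ≤ m := by
      intro i hi
      rcases (hC i hi).1 with h1 | h1
      · omega
      · rw [hT, Finset.mem_filter, Finset.mem_range] at h1
        omega
    set e := C.orderEmbOfFin hCc with he
    set ix : ℕ → ℕ := fun s => if hs : s < Fb c k + 2 then e ⟨s, hs⟩ else 0 with hix
    have hix1 : ∀ s (hs : s < Fb c k + 2), ix s = e ⟨s, hs⟩ := fun s hs => by
      simp only [hix, dif_pos hs]
    have hixC : ∀ s, s < Fb c k + 2 → ix s ∈ C := by
      intro s hs
      rw [hix1 s hs]
      exact Finset.orderEmbOfFin_mem C hCc _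
    have hixlt : ∀ s, s + 1 < Fb c k + 2 → ix s < ix (s + 1) := by
      intro s hs
      rw [hix1 s (by omega), hix1 (s + 1) hs]
      exact e.strictMono (by simp [Fin.lt_def])
    have hixT : ∀ s, s < Fb c k + 1 → ix s < m ∧ y (ix s) = y₀ := by
      intro s hs
      have h1 := hixlt s (by omega)
      have h2 := hCm _ (hixC (s + 1) (by omega))
      have h3 : ix s < m := by omega
      rcases (hC _ (hixC s (by omega))).1 with h4 | h4
      · omega
      · rw [hT, Finset.mem_filter] at h4
        exact ⟨h3, h4.2⟩
    have key := ih (insert y₀ P) (Function.update β y₀ b) (Fb c k + 1) (fun s => g (ix s))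
      (fun s => h (ix s)) ?_ ?_ ?_ ?_ ?_
    · omega
    · intro s hs
      obtain ⟨h1, _⟩ := hixT s hs
      refine ⟨(hgh _ h1).1, (hgh _ h1).2.trans (hmono _ _ ?_ (hCm _ (hixC (s + 1) (by omega))))⟩
      have := hixlt s (by omega)
      omega
    · intro s hs
      obtain ⟨h1, h2⟩ := hixT s hs
      have h3 := hq _ h1
      refine ⟨h3.1, ?_⟩
      have h4 := hy (ix s) h1
      rw [h2] at h4
      have h5 : (qs (h (ix s))).toFinset \ insert y₀ P =
          ((qs (h (ix s))).toFinset \ P).erase y₀ := by
        ext z
        simp only [Finset.mem_sdiff, Finset.mem_insert, Finset.mem_erase, List.mem_toFinset,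
          not_or]
        tauto
      rw [h5, Finset.card_erase_of_mem (Finset.mem_sdiff.2 ⟨List.mem_toFinset.2 h4.2.1, h4.2.2⟩)]
      omega
    · intro s hs z hz
      have h1 := hC _ (hixC s (by omega))
      have h2 := hCm _ (hixC s (by omega))
      by_cases hzy : z = y₀
      · subst hzy
        rw [Function.update_self]
        exact h1.2
      · rw [Function.update_of_ne hzy]
        exact hP _ h2 z (Finset.mem_of_mem_insert_of_ne hz hzy)
    · intro s hs
      exact hS _ (hCm _ (hixC s (by omega)))
    · intro s hs t ht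
      exact hr _ (hixT s hs).1 _ (hCm _ (hixC t (by omega)))

end Pool.Agent.TH680.KC
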