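import Pool.Agent.TH680.KC.Nb
import Pool.Agent.TH680.OR.Col

/-! No sparse set is hard for `NP` under bounded truth-table reductions. -/

set_option autoImplicit false

namespace Pool.Agent.TH680.KC

open Pool.Agent.NPC Pool.Agent.H620R2.Gauge Pool.Agent.H591R3.PHG MeasureTheory ProbabilityTheory
  Finset Pool.Agent.W900.IE Pool.Agent.W900.PS Pool.Agent.H622R2 Pool.Agent.W900
open Pool.Agent.TH680.OD (join sfx rr length_sfx disj_blk)
open Pool.Agent.TH680.SE (ver isFP_ver ask inst length_inst)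
open Pool.Agent.TH680.SE (setT card_strs card_bad nn KK nn_le le_nn KK_le rare_sum)
open Pool.Agent.TH680.OR (put put_off put_on Free single out_loc out_dep ob ob_spec poly_le_sqrt)

/-- `L` reduces to `S` by a truth-table reduction with at most `k` questions, relative to `O`: in
polynomial time relative to `O` one computes from `x` a list `qs` of at most `k` questions and a list
`tt` of answer vectors, such that `x` is in `L` if and only if the vector of the right answers is in
the list `tt`. -/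
def Btt (O S : Oracle) (k : ℕ) (L : Set (List Bool)) : Prop :=
  ∃ F : List Bool → List Bool, IsFP O F ∧ ∀ x, ∃ qs tt : List (List Bool),
    F x = bits (qs, tt) ∧ qs.length ≤ k ∧ (x ∈ L ↔ qs.map S ∈ tt)

/-- the bound for the number of the rows -/
noncomputable def PB (M : Alg) (k : ℕ) (p : Polynomial ℕ) : Polynomial ℕ :=
  (4 * p.comp ((ob M).comp (7 * Polynomial.X + 7)) + 1) ^ k

theorem room (M : Alg) (k : ℕ) (p : Polynomial ℕ) (q : ℕ → unitInterval) :
    ∀ᶠ N : ℕ in Filter.atTop,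
      4 * ((Fb (p.eval ((ob M).eval (7 * N + 7))) k + 1 + 1) *
        ((Fb (p.eval ((ob M).eval (7 * N + 7))) k + 1) * M.p.eval (7 * N + 7) + 1)) ≤
        3 * 2 ^ nn q N := by
  filter_upwards [poly_le_sqrt (4 * ((PB M k p + 1) *
    (PB M k p * M.p.comp (7 * Polynomial.X + 7) + 1)))] with N h1
  have e1 : (7 * Polynomial.X + 7 : Polynomial ℕ).eval N = 7 * N + 7 := by simp
  have e2 : (PB M k p).eval N = (4 * p.eval ((ob M).eval (7 * N + 7)) + 1) ^ k := by
    unfold PB
    rw [Polynomial.eval_pow, Polynomial.eval_add, Polynomial.eval_mul, Polynomial.eval_comp,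
      Polynomial.eval_comp, e1]
    simp
  have e3 : (4 * ((PB M k p + 1) * (PB M k p * M.p.comp (7 * Polynomial.X + 7) + 1)) :
      Polynomial ℕ).eval N = 4 * (((PB M k p).eval N + 1) *
        ((PB M k p).eval N * M.p.eval (7 * N + 7) + 1)) := by
    rw [Polynomial.eval_mul, Polynomial.eval_mul, Polynomial.eval_add, Polynomial.eval_add,
      Polynomial.eval_mul, Polynomial.eval_comp, e1]
    simp
  rw [e3, e2] at h1
  have h2 := Fb_le (p.eval ((ob M).eval (7 * N + 7))) k
  set f := Fb (p.eval ((ob M).eval (7 * N + 7))) k + 1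
  set P := (4 * p.eval ((ob M).eval (7 * N + 7)) + 1) ^ k
  set τ := M.p.eval (7 * N + 7)
  have h3 : (f + 1) * (f * τ + 1) ≤ (P + 1) * (P * τ + 1) :=
    Nat.mul_le_mul (by omega) (by have := Nat.mul_le_mul_right τ h2; omega)
  have h4 : 2 ^ (Nat.sqrt N / 2) ≤ 2 ^ nn q N :=
    Nat.pow_le_pow_right (by norm_num) ((Nat.div_le_self _ _).trans (le_nn q N))
  omega

theorem ae_rs {q : ℕ → unitInterval} {b : Bool}
    (hb : ¬ Summable (fun N => if decide ((1 / 2 : ℝ) < q N) = b then 2 ^ N * rr q N else 0))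
    (Q : Oracle) (M : Alg) (k : ℕ) (p : Polynomial ℕ) :
    ∀ᵐ A ∂(indep (DT.pq q)), ∃ᶠ N in Filter.atTop,
      A ∉ Rs M b Q k (p.eval ((ob M).eval (7 * N + 7))) ((ob M).eval (7 * N + 7))
        (nn q N) N (KK q N) := by
  have hKN : ∀ N, KK q N ≤ N + 1 := fun N =>
    (KK_le q N).trans (Nat.succ_le_succ (Nat.sqrt_le_self N))
  refine NX.ae_few hb (fun N => rs_dep M b Q _ _ _ (nn_le q N) (hKN N)) ?_
  filter_upwards [room M k p q] with N h1
  intro A _ hf
  exact rs_few (nn_le q N) (hKN N) rfl rfl h1 hf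

/-- **No sparse set is hard for `NP` under bounded truth-table reductions.** -/
theorem ae_btt {q : ℕ → unitInterval} (h : ¬ Summable (fun N => 2 ^ N * rr q N))
    (Q : Oracle) : ∀ᵐ A ∂(indep (DT.pq q)), ∃ L, IsNP (join Q A) L ∧ ∀ (S : Oracle)
      (p : Polynomial ℕ), (∀ n, {x : List Bool | S x = true ∧ x.length ≤ n}.ncard ≤ p.eval n) →
        ∀ k, ¬ Btt (join Q A) S k L := by
  obtain ⟨b, hb⟩ := rare_sum h
  have := EL.countable_poly
  have h1 : ∀ᵐ A ∂(indep (DT.pq q)), ∀ (M : Alg) (k : ℕ) (p : Polynomial ℕ),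
      ∃ᶠ N in Filter.atTop,
      A ∉ Rs M b Q k (p.eval ((ob M).eval (7 * N + 7))) ((ob M).eval (7 * N + 7))
        (nn q N) N (KK q N) := by
    rw [ae_all_iff]
    intro M
    rw [ae_all_iff]
    intro k
    rw [ae_all_iff]
    intro p
    exact ae_rs hb Q M k p
  filter_upwards [h1] with A hA
  refine ⟨lexL b (join Q A), isNP_lexL b _, ?_⟩
  rintro S p hS k ⟨F, ⟨M, hM⟩, hF⟩
  obtain ⟨N, hN⟩ := (hA M k p).exists
  apply hN
  have hKN : KK q N ≤ N + 1 := (KK_le q N).trans (Nat.succ_le_succ (Nat.sqrt_le_self N))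
  refine ⟨S, hS _, fun u hu => ?_⟩
  obtain ⟨qs, tt, h2, h3, h4⟩ := hF (yi u (nn q N) N (KK q N))
  refine ⟨qs, tt, by rw [hM, h2], h3, fun y hy => ?_, h4⟩
  have h5 := OR.mem_length hy
  have h6 : (bits qs).length ≤ (bits (qs, tt)).length := by
    rw [bits_length, bits_length, sz_pair]
    omega
  have h7 := ob_spec M (join Q A) (yi u (nn q N) N (KK q N))
  rw [hM, Option.getD_some, h2] at h7
  exact (h5.trans h6).trans (h7.trans (eval_mono _ (yi_le hu (nn_le q N) hKN)))

end Pool.Agent.TH680.KC
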