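import Pool.Agent.TH680.KC.Ord

/-! Few neighbours are good for a reduction to a sparse set. -/

set_option autoImplicit false

namespace Pool.Agent.TH680.KC

open Pool.Agent.NPC Pool.Agent.H620R2.Gauge Pool.Agent.H591R3.PHG MeasureTheory ProbabilityTheory
  Finset Pool.Agent.W900.IE Pool.Agent.W900.PS Pool.Agent.H622R2 Pool.Agent.W900
open Pool.Agent.TH680.OD (join sfx rr length_sfx disj_blk)
open Pool.Agent.TH680.SE (ver isFP_ver ask inst length_inst)
open Pool.Agent.TH680.SE (setT card_strs card_bad nn KK nn_le le_nn KK_le rare_sum)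
open Pool.Agent.TH680.OR (put put_off put_on Free single out_loc out_dep ob ob_spec poly_le_sqrt)

/-- decoding of the output of a reduction -/
def dcd (z : List Bool) : List (List Bool) × List (List Bool) :=
  (unbits (List (List Bool) × List (List Bool)) z).getD ([], [])

theorem dcd_bits (qs tt : List (List Bool)) : dcd (bits (qs, tt)) = (qs, tt) := by
  unfold dcd
  rw [unbits_bits, Option.getD_some]

open Classical in
theorem rs_few {M : Alg} {b : Bool} {Q : Oracle} {k c B n N K m τ : ℕ} (hn : n ≤ N)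
    (hK : K ≤ N + 1) (hm : m = Fb c k + 1) (hτ : τ = M.p.eval (7 * N + 7))
    (hroom : 4 * ((m + 1) * (m * τ + 1)) ≤ 3 * 2 ^ n) {A : Oracle} (hf : Free n N K b A) :
    4 * ((DT.strs n).filter (fun w => put N K b w A ∈ Rs M b Q k c B n N K)).card ≤ 3 * 2 ^ n := by
  by_contra hcon
  push Not at hcon
  set W := (DT.strs n).filter (fun w => put N K b w A ∈ Rs M b Q k c B n N K) with hW
  have hWs : ∀ w ∈ W, w ∈ DT.strs n ∧ put N K b w A ∈ Rs M b Q k c B n N K := fun w hw => by
    rw [hW, Finset.mem_filter] at hw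
    exact hw
  set D := m * τ + 1 with hD
  have hVc : (W.image valB).card = W.card := by
    apply Finset.card_image_of_injOn
    intro w hw w' hw' h
    have h1 := DT.mem_strs.1 (hWs w hw).1
    have h2 := DT.mem_strs.1 (hWs w' hw').1
    exact valB_inj (h1.trans h2.symm) h
  obtain ⟨C, hCsub, hCc⟩ := Finset.exists_subset_card_eq
    (show (m + 1) * D ≤ (W.image valB).card by rw [hVc]; omega)
  set e := C.orderEmbOfFin hCc with he
  have hex : ∀ i, ∃ w : List Bool, ∀ hi : i < (m + 1) * D, w ∈ W ∧ valB w = e ⟨i, hi⟩ := by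
    intro i
    by_cases hi : i < (m + 1) * D
    · have h1 := hCsub (Finset.orderEmbOfFin_mem C hCc ⟨i, hi⟩)
      rw [Finset.mem_image] at h1
      obtain ⟨w, h2, h3⟩ := h1
      exact ⟨w, fun _ => ⟨h2, h3⟩⟩
    · exact ⟨[], fun h => absurd h hi⟩
  choose wf hwf using hex
  have hle : ∀ i j, i < (m + 1) * D → j < (m + 1) * D → (valB (wf i) ≤ valB (wf j) ↔ i ≤ j) := by
    intro i j hi hj
    rw [(hwf i hi).2, (hwf j hj).2]
    exact e.le_iff_le.trans (by simp [Fin.le_def])
  have hinj : ∀ i j, i < (m + 1) * D → j < (m + 1) * D → wf i = wf j → i = j := by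
    intro i j hi hj h
    have h1 := (hle i j hi hj).1 (by rw [h])
    have h2 := (hle j i hj hi).1 (by rw [h])
    omega
  have hrow : ∀ r, 1 ≤ r → r ≤ m → r * D - 1 < (m + 1) * D := by
    intro r h1 h2
    have h3 : r * D ≤ (m + 1) * D := Nat.mul_le_mul_right D (by omega)
    have h4 : 1 * D ≤ r * D := Nat.mul_le_mul_right D h1
    omega
  -- the questions of the rows
  choose T hT hTA using fun r : ℕ => out_loc M Q A (yi (wf (r * D - 1)) n N K)
  have hTc : ∀ r, 1 ≤ r → r ≤ m → (T r).card ≤ τ := by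
    intro r h1 h2
    refine (hT r).trans ?_
    rw [hτ]
    exact eval_mono _ (yi_le (hWs _ (hwf _ (hrow r h1 h2)).1).1 hn hK)
  set TT := (Finset.Icc 1 m).biUnion T with hTT
  have hTTc : TT.card ≤ m * τ := by
    refine Finset.card_biUnion_le.trans ?_
    calc ∑ r ∈ Finset.Icc 1 m, (T r).card ≤ ∑ _r ∈ Finset.Icc 1 m, τ :=
          Finset.sum_le_sum fun r hr => by
            rw [Finset.mem_Icc] at hr
            exact hTc r hr.1 hr.2
      _ = m * τ := by rw [Finset.sum_const, smul_eq_mul, Nat.card_Icc]; simp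
  -- the columns
  have hcol : ∀ j, ∃ i, j ≤ m → j * D ≤ i ∧ i < (j + 1) * D ∧ i < (m + 1) * D ∧
      Disjoint TT (OD.blk N K (wf i)) := by
    intro j
    by_cases hj : j ≤ m
    · by_contra hcon2
      push Not at hcon2
      have hlt : ∀ i, i < (j + 1) * D → i < (m + 1) * D := fun i hi =>
        hi.trans_le (Nat.mul_le_mul_right D (by omega))
      have h1 := card_bad (W := (Finset.Ico (j * D) ((j + 1) * D)).image wf) (T := TT)
        (g := OD.blk N K) (by
        intro w hw w' hw' hne
        rw [Finset.mem_image] at hw hw'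
        obtain ⟨i, hi, rfl⟩ := hw
        obtain ⟨i', hi', rfl⟩ := hw'
        rw [Finset.mem_Ico] at hi hi'
        have h2 := DT.mem_strs.1 (hWs _ (hwf _ (hlt _ hi.2)).1).1
        have h3 := DT.mem_strs.1 (hWs _ (hwf _ (hlt _ hi'.2)).1).1
        exact disj_blk (h2.trans h3.symm) hne)
      have h2 : ((Finset.Ico (j * D) ((j + 1) * D)).image wf).filter
          (fun w => ¬ Disjoint TT (OD.blk N K w)) =
          (Finset.Ico (j * D) ((j + 1) * D)).image wf := by
        apply Finset.filter_true_of_mem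
        intro w hw
        rw [Finset.mem_image] at hw
        obtain ⟨i, hi, rfl⟩ := hw
        rw [Finset.mem_Ico] at hi
        exact (hcon2 i).2 hi.1 hi.2 (hlt i hi.2)
      rw [h2, Finset.card_image_of_injOn (by
        intro i hi i' hi' h
        rw [Finset.mem_coe, Finset.mem_Ico] at hi hi'
        exact hinj i i' (hlt _ hi.2) (hlt _ hi'.2) h), Nat.card_Ico] at h1
      have h3 : (j + 1) * D - j * D = D := by
        rw [Nat.add_mul, one_mul]
        omega
      omega
    · exact ⟨0, fun h => absurd h hj⟩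
  choose ix hix using hcol
  -- the sets
  have hSex : ∀ j, ∃ S : Oracle, j ≤ m → {x : List Bool | S x = true ∧ x.length ≤ B}.ncard ≤ c ∧
      ∀ u ∈ DT.strs n, ∃ qs tt : List (List Bool),
        M.out (join Q (put N K b (wf (ix j)) A)) (yi u n N K) = some (bits (qs, tt)) ∧
          qs.length ≤ k ∧ (∀ y ∈ qs, y.length ≤ B) ∧
          (yi u n N K ∈ lexL b (join Q (put N K b (wf (ix j)) A)) ↔ qs.map S ∈ tt) := by
    intro j
    by_cases hj : j ≤ m
    · obtain ⟨S, h1, h2⟩ := (hWs _ (hwf _ (hix j hj).2.2.1).1).2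
      exact ⟨S, fun _ => ⟨h1, h2⟩⟩
    · exact ⟨fun _ => false, fun h => absurd h hj⟩
  choose S hS using hSex
  set dz : ℕ → List (List Bool) × List (List Bool) := fun r =>
    dcd ((M.out (join Q A) (yi (wf (r * D - 1)) n N K)).getD []) with hdz
  have hmain : ∀ r j, 1 ≤ r → r ≤ m → j ≤ m → (dz r).1.length ≤ k ∧
      (∀ y ∈ (dz r).1, y.length ≤ B) ∧ ((dz r).1.map (S j) ∈ (dz r).2 ↔ j < r) := by
    intro r j h1 h2 h3
    have hr := hwf _ (hrow r h1 h2)
    have hu := (hWs _ hr.1).1
    obtain ⟨hj1, hj2, hj3, hj4⟩ := hix j h3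
    obtain ⟨qs, tt, h4, h5, h6, h7⟩ := (hS j h3).2 _ hu
    have h8 : M.out (join Q (put N K b (wf (ix j)) A)) (yi (wf (r * D - 1)) n N K) =
        M.out (join Q A) (yi (wf (r * D - 1)) n N K) := by
      refine hTA r _ fun z hz => put_off (Finset.disjoint_left.1 hj4 ?_)
      exact Finset.mem_biUnion.2 ⟨r, Finset.mem_Icc.2 ⟨h1, h2⟩, hz⟩
    have h9 : dz r = (qs, tt) := by
      rw [hdz]
      simp only
      rw [← h8, h4, Option.getD_some, dcd_bits]
    rw [h9]
    refine ⟨h5, h6, ?_⟩
    rw [← h7, yi_mem]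
    have hwj := (hWs _ (hwf _ hj3).1).1
    have h10 : (∃ w : List Bool, w.length = n ∧ valB w ≤ valB (wf (r * D - 1)) ∧
        ∀ i < K, put N K b (wf (ix j)) A (w ++ sfx (N - n) i) = !b) ↔
        valB (wf (ix j)) ≤ valB (wf (r * D - 1)) := by
      constructor
      · rintro ⟨w, e1, e2, e3⟩
        rw [← (single hf hwj w e1).1 e3]
        exact e2
      · intro h
        exact ⟨_, DT.mem_strs.1 hwj, h, (single hf hwj _ (DT.mem_strs.1 hwj)).2 rfl⟩
    rw [h10, hle _ _ hj3 (hrow r h1 h2)]
    have h11 : 1 * D ≤ r * D := Nat.mul_le_mul_right D h1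
    constructor
    · intro h
      by_contra hlt
      push Not at hlt
      have h12 : r * D ≤ j * D := Nat.mul_le_mul_right D hlt
      omega
    · intro h
      have h12 : (j + 1) * D ≤ r * D := Nat.mul_le_mul_right D h
      omega
  set Y := (Finset.range (B + 1)).biUnion DT.strs with hY
  have hYm : ∀ y : List Bool, y ∈ Y ↔ y.length ≤ B := by
    intro y
    rw [hY, Finset.mem_biUnion]
    constructor
    · rintro ⟨i, hi, h⟩
      rw [DT.mem_strs] at h
      rw [Finset.mem_range] at hi
      omega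
    · intro h
      exact ⟨y.length, Finset.mem_range.2 (by omega), DT.mem_strs.2 rfl⟩
  have key := chain_le (Y := Y) (qs := fun r => (dz r).1) (tt := fun r => (dz r).2) (S := S)
    (c := c) k ∅ (fun _ => false) m (fun s => s) (fun s => s + 1) (fun s _ => by simp)
    (fun s hs => by
      have h1 := hmain (s + 1) 0 (by omega) (by omega) (by omega)
      refine ⟨fun y hy => (hYm y).2 (h1.2.1 y hy), ?_⟩
      rw [Finset.sdiff_empty]
      exact (List.toFinset_card_le _).trans h1.1)
    (fun s _ y hy => by simp at hy)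
    (fun s hs => by
      have h1 := (hS s hs).1
      have h2 : {x : List Bool | S s x = true ∧ x.length ≤ B} =
          ((Y.filter (fun y => S s y = true) : Finset (List Bool)) : Set (List Bool)) := by
        ext x
        rw [Finset.mem_coe, Finset.mem_filter, hYm, Set.mem_ofPred_eq]
        tauto
      rw [h2, Set.ncard_coe_finset] at h1
      exact h1)
    (fun s hs t ht => (hmain (s + 1) t (by omega) (by omega) ht).2.2)
  omega

end Pool.Agent.TH680.KC
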