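import Pool.Agent.TH680.OR.Law
import Pool.Agent.TH680.NX.Few
import Pool.Agent.TH680.KC.Chain

/-! Witnesses below a bound. -/

set_option autoImplicit false

namespace Pool.Agent.TH680.KC

open Pool.Agent.NPC Pool.Agent.H620R2.Gauge Pool.Agent.H591R3.PHG MeasureTheory ProbabilityTheory
  Finset Pool.Agent.W900.IE Pool.Agent.W900.PS Pool.Agent.H622R2 Pool.Agent.W900
open Pool.Agent.TH680.OD (join sfx rr length_sfx disj_blk)
open Pool.Agent.TH680.SE (ver isFP_ver ask inst length_inst)
open Pool.Agent.TH680.SE (setT card_strs card_bad nn KK nn_le le_nn KK_le rare_sum)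
open Pool.Agent.TH680.OR (put put_off put_on Free single out_loc out_dep ob ob_spec poly_le_sqrt)

/-- the verification: the witness is one, and it is not above the given string -/
def verO (b : Bool) (O : Oracle) (z : List Bool) : List Bool :=
  [decide (valB (unpair z).1 ≤ valB (unpair (unpair z).2).1) &&
    decide (ver b O (pairBits (unpair z).1 (unpair (unpair z).2).2) = [true])]

theorem isFP_verO (b : Bool) (O : Oracle) : IsFP O (verO b O) := by
  have h0 : Poly (fun z : List Bool => (unpair z).2) := Poly.snd poly_unpair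
  have h1 : Poly (fun z : List Bool => (unpair (unpair z).2).1) :=
    Poly.fst (poly_unpair.comp h0)
  have h2 : Poly (fun z : List Bool => (unpair (unpair z).2).2) :=
    Poly.snd (poly_unpair.comp h0)
  have h3 : Poly (fun z : List Bool => (unpair z).1) := Poly.fst poly_unpair
  have hv : IsFP O (fun z => ver b O (pairBits (unpair z).1 (unpair (unpair z).2).2)) :=
    (isFP_ver b O).precomp (poly_pairBits h3 h2)
  have h4 := IsFP.seq (φ := fun p : List Bool × List Bool => p.1)
    (ψ := fun p : List Bool × List Bool × List Bool =>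
      [decide (valB (unpair p.1).1 ≤ valB (unpair (unpair p.1).2).1) &&
        decide (p.2.1 = [true])]) hv (IsFP.of_poly (A := O) (F := fun s => s) Poly.id)
    (Poly.fst Poly.id) (by
      have e1 : Poly (fun p : List Bool × List Bool × List Bool => p.1) := Poly.fst Poly.id
      refine Poly.cons (Poly.and (Poly.decide_le (Poly.valBits (h3.comp e1))
        (Poly.valBits (h1.comp e1))) (Poly.decide_eq (Poly.fst (Poly.snd Poly.id))
          (NPC.Poly.const _))) (NPC.Poly.const []))
  exact h4

/-- the search problem -/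
def lexL (b : Bool) (O : Oracle) : Set (List Bool) :=
  {x | ∃ w : List Bool, w.length ≤ Polynomial.eval x.length Polynomial.X ∧
    verO b O (pairBits w x) = [true]}

theorem isNP_lexL (b : Bool) (O : Oracle) : IsNP O (lexL b O) :=
  ⟨verO b O, Polynomial.X, isFP_verO b O, fun _ => Iff.rfl⟩

/-- the instances -/
def yi (u : List Bool) (n N K : ℕ) : List Bool := pairBits u (inst n N K)

theorem length_yi (u : List Bool) (n N K : ℕ) :
    (yi u n N K).length = 2 * u.length + 1 + (2 * n + 1 + (2 * N + 1 + K)) := by
  unfold yi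
  rw [length_pairBits, length_inst]

theorem yi_mem (b : Bool) (Q A : Oracle) (u : List Bool) (n N K : ℕ) :
    yi u n N K ∈ lexL b (join Q A) ↔ ∃ w : List Bool, w.length = n ∧
      valB w ≤ valB u ∧ ∀ i < K, A (w ++ sfx (N - n) i) = !b := by
  have hver : ∀ w : List Bool, verO b (join Q A) (pairBits w (yi u n N K)) = [true] ↔
      valB w ≤ valB u ∧
        w.length = n ∧ ∀ i < K, A (w ++ sfx (N - n) i) = !b := by
    intro w
    unfold verO ver ask yi inst
    simp only [unpair_pairBits, List.length_replicate, List.cons.injEq, and_true,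
      Bool.and_eq_true, decide_eq_true_eq, List.all_eq_true, List.mem_map, List.mem_range,
      forall_exists_index, and_imp]
    refine and_congr_right fun _ => and_congr_right fun _ => ?_
    constructor
    · intro h i hi
      have h1 := h _ _ i hi rfl rfl
      change (A (w ++ sfx (N - n) i) ^^ b) = true at h1
      revert h1
      cases A (w ++ sfx (N - n) i) <;> cases b <;> simp
    · rintro h a q i hi rfl rfl
      have h1 := h i hi
      change (A (w ++ sfx (N - n) i) ^^ b) = true
      rw [h1]
      cases b <;> rfl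
  unfold lexL
  rw [Set.mem_ofPred_eq]
  constructor
  · rintro ⟨w, _, h⟩
    obtain ⟨h1, h2, h3⟩ := (hver w).1 h
    exact ⟨w, h2, h1, h3⟩
  · rintro ⟨w, h2, h1, h3⟩
    refine ⟨w, ?_, (hver w).2 ⟨h1, h2, h3⟩⟩
    rw [Polynomial.eval_X, length_yi]
    omega

theorem valB_inj : ∀ {l l' : List Bool}, l.length = l'.length → valB l = valB l' → l = l'
  | [], [], _, _ => rfl
  | [], _ :: _, h, _ => by simp at h
  | _ :: _, [], h, _ => by simp at h
  | a :: l, b :: l', h, h' => by
    have h1 : l = l' := valB_inj (by simpa using h)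
      (by cases a <;> cases b <;> simp at h' <;> omega)
    subst h1
    cases a <;> cases b <;> simp at h' <;> first | rfl | omega

/-- The reduction computed by `M`, with at most `k` questions, is right for some set `S` with at most
`c` elements of length at most `B`. -/
def Rs (M : Alg) (b : Bool) (Q : Oracle) (k c B n N K : ℕ) : Set Oracle :=
  {A | ∃ S : Oracle, {x : List Bool | S x = true ∧ x.length ≤ B}.ncard ≤ c ∧
    ∀ u ∈ DT.strs n, ∃ qs tt : List (List Bool),
      M.out (join Q A) (yi u n N K) = some (bits (qs, tt)) ∧ qs.length ≤ k ∧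
        (∀ y ∈ qs, y.length ≤ B) ∧
        (yi u n N K ∈ lexL b (join Q A) ↔ qs.map S ∈ tt)}

theorem yi_le {u : List Bool} {n N K : ℕ} (hu : u ∈ DT.strs n) (hn : n ≤ N) (hK : K ≤ N + 1) :
    (yi u n N K).length ≤ 7 * N + 7 := by
  rw [length_yi, DT.mem_strs.1 hu]
  omega

theorem rs_dep (M : Alg) (b : Bool) (Q : Oracle) (k c B : ℕ) {n N K : ℕ} (hn : n ≤ N)
    (hK : K ≤ N + 1) : ∃ F, DepO F (Rs M b Q k c B n N K) := by
  refine ⟨(Finset.range ((qb M).eval (7 * N + 7) + N + 1)).biUnion DT.strs, ?_⟩
  rintro A A' hAA ⟨S, hS, h1⟩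
  have hle : ∀ z : List Bool, z.length ≤ (qb M).eval (7 * N + 7) + N → A z = A' z := fun z hz =>
    hAA z (Finset.mem_biUnion.2 ⟨z.length, Finset.mem_range.2 (by omega), DT.mem_strs.2 rfl⟩)
  refine ⟨S, hS, fun u hu => ?_⟩
  obtain ⟨qs, tt, h2, h3, h4, h5⟩ := h1 u hu
  refine ⟨qs, tt, ?_, h3, h4, ?_⟩
  · rw [← out_dep M Q A A' _ fun z hz => hle z ?_]
    · exact h2
    · have := hz.trans (eval_mono (qb M) (yi_le hu hn hK))
      omega
  · rw [← h5, yi_mem, yi_mem]
    refine exists_congr fun w => and_congr_right fun hw => and_congr_right fun _ =>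
      forall₂_congr fun i _ => ?_
    rw [hle (w ++ sfx (N - n) i)]
    rw [List.length_append, length_sfx]
    omega

end Pool.Agent.TH680.KC
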